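import Pool.Agent.H.MP_c10209_ag.Defs

namespace Pool.Agent.H.MP_c10209_ag

open MvPolynomial RingTheory.Sequence

lemma weakReg_pair {R : Type} [CommRing R] {a b : R} (ha : ∀ x, a * x = 0 → x = 0)
    (hb : ∀ x y, b * x = a * y → ∃ z, x = a * z) : IsWeaklyRegular R [a, b] := by
  rw [isWeaklyRegular_cons_iff, isWeaklyRegular_singleton_iff]
  constructor
  · intro x y hxy
    have : a * (x - y) = 0 := by
      have h : a * x = a * y := hxy
      rw [mul_sub, h, sub_self]
    exact sub_eq_zero.mp (ha _ this)
  · rw [isSMulRegular_iff_right_eq_zero_of_smul]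
    intro m hm
    obtain ⟨x, rfl⟩ := Submodule.Quotient.mk_surjective _ m
    rw [← Submodule.Quotient.mk_smul, Submodule.Quotient.mk_eq_zero] at hm
    rw [Submodule.Quotient.mk_eq_zero]
    obtain ⟨y, -, hy⟩ := (Submodule.mem_smul_pointwise_iff_exists _ _ _).mp hm
    obtain ⟨z, hz⟩ := hb x y (by simpa using hy.symm)
    exact (Submodule.mem_smul_pointwise_iff_exists _ _ _).mpr ⟨z, trivial, by simp [hz]⟩

abbrev B2 : Type := MvPolynomial (Fin 2) ℂ

lemma X_sub_C_ne (i : Fin 2) (a : ℂ) : (X i - C a : B2) ≠ 0 := by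
  intro h
  have := congrArg (eval (fun _ => a + 1)) h
  simp at this

lemma sub_dvd (a : ℂ) (g : B2) :
    (X 0 - C a : B2) ∣ g - aeval (fun i : Fin 2 => if i = 0 then (C a : B2) else X i) g := by
  induction g using MvPolynomial.induction_on with
  | C c => simp
  | add p q hp hq =>
    have := dvd_add hp hq
    convert this using 1
    rw [map_add]; ring
  | mul_X p i hp =>
    rw [map_mul, aeval_X]
    by_cases hi : i = 0
    · subst hi
      simp only [if_true]
      have e : p * X 0 - aeval (fun i : Fin 2 => if i = 0 then (C a : B2) else X i) p * C a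
          = p * (X 0 - C a) + (p - aeval (fun i : Fin 2 => if i = 0 then (C a : B2) else X i) p)
            * C a := by ring
      rw [e]
      exact dvd_add (Dvd.intro_left _ rfl) (Dvd.dvd.mul_right hp _)
    · simp only [hi, if_false]
      rw [← sub_mul]
      exact Dvd.dvd.mul_right hp _

lemma weakReg_point (a b : ℂ) : IsWeaklyRegular B2 [(X 0 - C a : B2), (X 1 - C b : B2)] := by
  refine weakReg_pair (fun x hx => (mul_eq_zero.mp hx).resolve_left (X_sub_C_ne 0 a)) ?_
  intro x y hxy
  have h := congrArg (aeval (fun i : Fin 2 => if i = 0 then (C a : B2) else X i)) hxy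
  simp only [map_mul, map_sub, aeval_X, if_true, aeval_C, algebraMap_eq, sub_self, zero_mul,
    one_ne_zero, if_false] at h
  have h0 := (mul_eq_zero.mp h).resolve_left (X_sub_C_ne 1 b)
  have := sub_dvd a x
  rw [h0, sub_zero] at this
  exact this

lemma dim_B2 : ringKrullDim B2 = 2 := by
  rw [MvPolynomial.ringKrullDim_of_isNoetherianRing]
  simp

lemma height_le_two (q : Ideal B2) [q.IsPrime] : q.height ≤ 2 := by
  have h := Ideal.height_le_ringKrullDim_of_isPrime (I := q)
  rw [dim_B2] at h
  exact WithBot.coe_le_coe.mp h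

lemma exists_seq (q : Ideal B2) [q.IsPrime] :
    ∃ rs : List B2, IsWeaklyRegular B2 rs ∧ (∀ r ∈ rs, r ∈ q) ∧ q.height ≤ rs.length := by
  by_cases h0 : q = ⊥
  · exact ⟨[], IsWeaklyRegular.nil _ _, by simp, by simp [h0]⟩
  by_cases hm : q.IsMaximal
  · obtain ⟨x, hx⟩ := eq_vanishingIdeal_singleton_of_isMaximal ℂ hm
    refine ⟨[X 0 - C (x 0), X 1 - C (x 1)], weakReg_point _ _, ?_, by simpa using height_le_two q⟩
    intro r hr
    rw [hx, mem_vanishingIdeal_singleton_iff]
    simp only [List.mem_cons, List.not_mem_nil, or_false] at hr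
    rcases hr with rfl | rfl <;> simp
  · obtain ⟨f, hf, hf0⟩ := Submodule.exists_mem_ne_zero_of_ne_bot h0
    obtain ⟨m, hm', hqm⟩ := Ideal.exists_le_maximal q (Ideal.IsPrime.ne_top inferInstance)
    have hlt : q < m := lt_of_le_of_ne hqm (fun h => hm (h ▸ hm'))
    have h1 := Ideal.height_add_one_le_of_lt_of_isPrime hlt
    have h2 := height_le_two m
    refine ⟨[f], ?_, by simpa using hf, ?_⟩
    · rw [isWeaklyRegular_singleton_iff]
      intro x y hxy
      exact mul_left_cancel₀ hf0 hxy
    · have h3 : q.height + 1 ≤ 1 + 1 := h1.trans (by simpa [one_add_one_eq_two] using h2)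
      simpa using (ENat.add_le_add_iff_right (by simp)).mp h3

lemma isCM_of_flat (S : Type) [CommRing S] [Algebra B2 S] [Module.Finite B2 S]
    [Module.Flat B2 S] : IsCM S := by
  intro p hp
  have : IsNoetherianRing S := IsNoetherianRing.of_finite B2 S
  obtain ⟨rs, hreg, hmem, hlen⟩ := exists_seq (p.comap (algebraMap B2 S))
  have h1 : IsWeaklyRegular S (rs.map (algebraMap B2 S)) := hreg.of_flat
  have h2 := h1.isRegular_of_isLocalization_of_mem (Localization.AtPrime p) p (by
    intro r hr
    obtain ⟨r', hr', rfl⟩ := List.mem_map.mp hr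
    exact hmem r' hr')
  refine ⟨_, h2, le_antisymm ?_ ?_⟩
  · rw [← ringKrullDim_add_length_eq_ringKrullDim_of_isRegular _ h2]
    have hne : Ideal.ofList ((rs.map (algebraMap B2 S)).map
        (algebraMap S (Localization.AtPrime p))) ≠ ⊤ := by
      intro h
      apply h2.2
      rw [h]; simp
    have : Nontrivial (Localization.AtPrime p ⧸ Ideal.ofList ((rs.map (algebraMap B2 S)).map
        (algebraMap S (Localization.AtPrime p)))) := Ideal.Quotient.nontrivial_iff.mpr hne
    exact le_add_of_nonneg_left ringKrullDim_nonneg_of_nontrivial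
  · rw [IsLocalization.AtPrime.ringKrullDim_eq_height p (Localization.AtPrime p)]
    have hs : StrictMono (PrimeSpectrum.comap (algebraMap B2 S)) := by
      intro a b hab
      exact Ideal.IsIntegral.comap_lt_comap (R := B2) (I := a.asIdeal) (J := b.asIdeal) hab
    have h3 := Order.height_le_height_apply_of_strictMono _ hs ⟨p, hp⟩
    rw [← PrimeSpectrum.height_eq_orderHeight, ← PrimeSpectrum.height_eq_orderHeight] at h3
    have h4 : p.height ≤ rs.length := h3.trans hlen
    simp only [List.length_map]
    exact_mod_cast h4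

end Pool.Agent.H.MP_c10209_ag
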