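import Pool.Agent.H.MP_c10209_ag.A

namespace Pool.Agent.H.MP_c10209_ag

open MvPolynomial

/-- the path `12, 23, 34` -/
def S0 : Set (Finset (Fin 4)) := {{0, 1}, {1, 2}, {2, 3}}

/-- point of the chart -/
def cpt (ε : Fin 4 → Bool) (t : Fin 4 → ℂ) : V → ℂ :=
  fun v => if v.2 then 1 - (if ε v.1 then t v.1 else 0) else t v.1

lemma cpt_mem (ε : Fin 4 → Bool) (t : Fin 4 → ℂ) : cpt ε t ∈ Pts := by
  intro i
  by_cases h : t i = 0
  · right; simp [cpt, h]
  · left; simpa [cpt] using h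

lemma aeval_chart {A : Type} [CommRing A] [Algebra A ℂ] (ε : Fin 4 → Bool) (t : Fin 4 → ℂ)
    (f : MvPolynomial V A) : aeval t (chart A ε f) = aeval (cpt ε t) f := by
  have : (aeval t : MvPolynomial (Fin 4) A →ₐ[A] ℂ).comp (chart A ε) = aeval (cpt ε t) := by
    ext v
    rcases v with ⟨i, b⟩
    cases b
    · simp [chart, cpt]
    · by_cases h : ε i <;> simp [chart, cpt, h]
  exact DFunLike.congr_fun this f

lemma mem_XS {p : V → ℂ} : p ∈ XS S0 ↔ p ∈ Pts ∧
    ((p (2, false) = 0 ∧ p (3, false) = 0) ∨ (p (0, false) = 0 ∧ p (3, false) = 0) ∨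
      (p (0, false) = 0 ∧ p (1, false) = 0)) := by
  simp only [XS, S0, Set.mem_iUnion, Set.mem_insert_iff, Set.mem_singleton_iff, exists_prop,
    exists_eq_or_imp, exists_eq_left, Schub, Set.mem_ofPred_eq]
  simp only [Fin.forall_fin_succ]
  simp
  tauto

lemma XX_mem {i j : Fin 4} (h : (i = 0 ∧ j = 2) ∨ (i = 0 ∧ j = 3) ∨ (i = 1 ∧ j = 3)) :
    (X (i, false) * X (j, false) : MvPolynomial V ℂ) ∈ vanishingIdeal ℂ (XS S0) := by
  intro p hp
  obtain ⟨-, hp⟩ := mem_XS.mp hp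
  simp only [map_mul, aeval_X, mul_eq_zero]
  rcases h with ⟨rfl, rfl⟩ | ⟨rfl, rfl⟩ | ⟨rfl, rfl⟩ <;> tauto

lemma XX_mem_chart (ε : Fin 4 → Bool) {i j : Fin 4}
    (h : (i = 0 ∧ j = 2) ∨ (i = 0 ∧ j = 3) ∨ (i = 1 ∧ j = 3)) :
    (X i * X j : MvPolynomial (Fin 4) ℂ) ∈ (vanishingIdeal ℂ (XS S0)).map (chart ℂ ε) := by
  have := Ideal.mem_map_of_mem (chart ℂ ε) (XX_mem h)
  simpa [chart] using this

lemma vanish_chart (ε : Fin 4 → Bool) {g : MvPolynomial (Fin 4) ℂ}
    (hg : g ∈ (vanishingIdeal ℂ (XS S0)).map (chart ℂ ε)) (t : Fin 4 → ℂ)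
    (ht : (t 2 = 0 ∧ t 3 = 0) ∨ (t 0 = 0 ∧ t 3 = 0) ∨ (t 0 = 0 ∧ t 1 = 0)) : aeval t g = 0 := by
  have : (vanishingIdeal ℂ (XS S0)).map (chart ℂ ε) ≤ vanishingIdeal ℂ {t} := by
    rw [Ideal.map_le_iff_le_comap]
    intro f hf
    rw [Ideal.mem_comap, mem_vanishingIdeal_singleton_iff, aeval_chart]
    exact hf _ (mem_XS.mpr ⟨cpt_mem ε t, by simpa [cpt] using ht⟩)
  exact (mem_vanishingIdeal_singleton_iff _ _).mp (this hg)

/-- parameters -/
noncomputable def th : B2 →ₐ[ℂ] MvPolynomial (Fin 4) ℂ := aeval ![X 0 + X 2, X 1 + X 3]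

lemma th0 : th (X 0) = X 0 + X 2 := by simp [th]
lemma th1 : th (X 1) = X 1 + X 3 := by simp [th]

lemma normal_form (K : Ideal (MvPolynomial (Fin 4) ℂ)) (h02 : X 0 * X 2 ∈ K) (h03 : X 0 * X 3 ∈ K)
    (h13 : X 1 * X 3 ∈ K) (g : MvPolynomial (Fin 4) ℂ) :
    ∃ a b c : B2, g - (th a + th b * X 0 + th c * X 3) ∈ K := by
  induction g using MvPolynomial.induction_on with
  | C r => exact ⟨C r, 0, 0, by simp [th]⟩
  | add p q hp hq =>
    obtain ⟨a, b, c, h⟩ := hp
    obtain ⟨a', b', c', h'⟩ := hq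
    refine ⟨a + a', b + b', c + c', ?_⟩
    convert K.add_mem h h' using 1
    simp only [map_add]; ring
  | mul_X p i hp =>
    obtain ⟨a, b, c, h⟩ := hp
    have h1 := K.mul_mem_right (X i) h
    fin_cases i
    · refine ⟨0, a + b * X 0, 0, ?_⟩
      convert K.add_mem h1 (K.sub_mem (K.mul_mem_left (th c) h03) (K.mul_mem_left (th b) h02))
        using 1
      simp only [map_add, map_mul, th0, map_zero, Fin.zero_eta]; ring
    · refine ⟨a * X 1, b * X 1, -a, ?_⟩
      convert K.add_mem h1 (K.sub_mem (K.mul_mem_left (th c) h13) (K.mul_mem_left (th b) h03))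
        using 1
      simp only [map_mul, th1, map_neg, Fin.mk_one]; ring
    · refine ⟨a * X 0, -a, c * X 0, ?_⟩
      convert K.add_mem h1 (K.sub_mem (K.mul_mem_left (th b) h02) (K.mul_mem_left (th c) h03))
        using 1
      simp only [map_mul, th0, map_neg, Fin.reduceFinMk]; ring
    · refine ⟨0, 0, a + c * X 1, ?_⟩
      convert K.add_mem h1 (K.sub_mem (K.mul_mem_left (th b) h03) (K.mul_mem_left (th c) h13))
        using 1
      simp only [map_add, map_mul, th1, map_zero, Fin.reduceFinMk]; ring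

lemma aeval_th (t : Fin 4 → ℂ) (a : B2) : aeval t (th a) = eval ![t 0 + t 2, t 1 + t 3] a := by
  have : (aeval t : MvPolynomial (Fin 4) ℂ →ₐ[ℂ] ℂ).comp th = aeval ![t 0 + t 2, t 1 + t 3] := by
    ext i
    fin_cases i <;> simp [th]
  exact (DFunLike.congr_fun this a).trans (by simp [aeval_eq_eval])

lemma unique_form (ε : Fin 4 → Bool) {a b c : B2}
    (h : th a + th b * X 0 + th c * X 3 ∈ (vanishingIdeal ℂ (XS S0)).map (chart ℂ ε)) :
    a = 0 ∧ b = 0 ∧ c = 0 := by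
  have e : ∀ s : Fin 2 → ℂ, ![s 0, s 1] = s := fun s => by
    ext i; fin_cases i <;> simp
  have ha : a = 0 := by
    apply MvPolynomial.funext
    intro s
    have := vanish_chart ε h ![0, s 1, s 0, 0] (by simp)
    simp only [map_add, map_mul, aeval_th, aeval_X] at this
    simpa [e] using this
  subst ha
  refine ⟨rfl, ?_, ?_⟩
  · have : b * X 0 = 0 := by
      apply MvPolynomial.funext
      intro s
      have := vanish_chart ε h ![s 0, s 1, 0, 0] (by simp)
      simp only [map_add, map_mul, aeval_th, aeval_X] at this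
      simpa [e] using this
    exact (mul_eq_zero.mp this).resolve_right (X_ne_zero _)
  · have : c * X 1 = 0 := by
      apply MvPolynomial.funext
      intro s
      have := vanish_chart ε h ![0, 0, s 0, s 1] (by simp)
      simp only [map_add, map_mul, aeval_th, aeval_X] at this
      simpa [e] using this
    exact (mul_eq_zero.mp this).resolve_right (X_ne_zero _)

theorem isCM_XS (ε : Fin 4 → Bool) : IsCM (ChartRing ε (vanishingIdeal ℂ (XS S0))) := by
  obtain ⟨K, hK⟩ : ∃ K, K = (vanishingIdeal ℂ (XS S0)).map (chart ℂ ε) := ⟨_, rfl⟩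
  have hn := normal_form K (hK ▸ XX_mem_chart ε (by simp)) (hK ▸ XX_mem_chart ε (by simp))
    (hK ▸ XX_mem_chart ε (by simp))
  have hu : ∀ {a b c : B2}, th a + th b * X 0 + th c * X 3 ∈ K → a = 0 ∧ b = 0 ∧ c = 0 :=
    fun h => unique_form ε (hK ▸ h)
  show IsCM (MvPolynomial (Fin 4) ℂ ⧸ (vanishingIdeal ℂ (XS S0)).map (chart ℂ ε))
  rw [← hK]
  letI : Algebra B2 (MvPolynomial (Fin 4) ℂ ⧸ K) :=
    ((Ideal.Quotient.mk K).comp (th : B2 →+* _)).toAlgebra
  have hs : ∀ (a : B2) (g : MvPolynomial (Fin 4) ℂ),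
      a • Ideal.Quotient.mk K g = Ideal.Quotient.mk K (th a * g) := fun a g => rfl
  let v : Fin 3 → MvPolynomial (Fin 4) ℂ ⧸ K :=
    ![Ideal.Quotient.mk K 1, Ideal.Quotient.mk K (X 0), Ideal.Quotient.mk K (X 3)]
  have hsum : ∀ g : Fin 3 → B2, ∑ i, g i • v i =
      Ideal.Quotient.mk K (th (g 0) + th (g 1) * X 0 + th (g 2) * X 3) := by
    intro g
    rw [Fin.sum_univ_three]
    simp only [v, Matrix.cons_val_zero, Matrix.cons_val_one, Matrix.cons_val_two, Matrix.head_cons,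
      Matrix.tail_cons, hs, map_add, mul_one]
  have hli : LinearIndependent B2 v := by
    rw [Fintype.linearIndependent_iff]
    intro g hg i
    rw [hsum, Ideal.Quotient.eq_zero_iff_mem] at hg
    obtain ⟨h0, h1, h2⟩ := hu hg
    fin_cases i <;> assumption
  have hsp : ⊤ ≤ Submodule.span B2 (Set.range v) := by
    intro x _
    obtain ⟨g, rfl⟩ := Ideal.Quotient.mk_surjective x
    obtain ⟨a, b, c, h⟩ := hn g
    rw [Submodule.mem_span_range_iff_exists_fun]
    refine ⟨![a, b, c], ?_⟩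
    rw [hsum]
    exact (Ideal.Quotient.eq.mpr h).symm
  let bs := Module.Basis.mk hli hsp
  have := Module.Free.of_basis bs
  have := Module.Finite.of_basis bs
  exact isCM_of_flat _

end Pool.Agent.H.MP_c10209_ag
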