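import Pool.Agent.H.MP_c10209_ag.B

namespace Pool.Agent.H.MP_c10209_ag

open MvPolynomial Finsupp

lemma weight_wt (m : V →₀ ℕ) (k : Fin 4) : weight wt m k = m (k, false) + m (k, true) := by
  rw [weight_apply, Finsupp.sum_fintype _ _ (by simp), Finset.sum_apply, Fintype.sum_prod_type]
  rw [Finset.sum_eq_single k]
  · simp [wt, add_comm]
  · intro b _ hb
    simp [wt, Pi.single_eq_of_ne hb.symm]
  · simp

lemma scale {A L : Type} [CommRing A] [CommRing L] (φ : A →+* L) (c : Fin 4 → L) (q : V → L)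
    {F : MvPolynomial V A} {d : Fin 4 → ℕ} (hF : IsWeightedHomogeneous wt F d) :
    eval₂Hom φ (fun v => c v.1 * q v) F = (∏ k, c k ^ d k) * eval₂Hom φ q F := by
  conv_lhs => rw [F.as_sum]
  conv_rhs => rw [F.as_sum]
  rw [map_sum, map_sum, Finset.mul_sum]
  refine Finset.sum_congr rfl fun m hm => ?_
  have hw := hF (MvPolynomial.mem_support_iff.mp hm)
  rw [eval₂Hom_monomial, eval₂Hom_monomial, Finsupp.prod_fintype _ _ (by simp),
    Finsupp.prod_fintype _ _ (by simp)]
  simp only [mul_pow, Finset.prod_mul_distrib]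
  have : ∏ v : V, c v.1 ^ m v = ∏ k, c k ^ d k := by
    rw [Fintype.prod_prod_type]
    refine Finset.prod_congr rfl fun k _ => ?_
    rw [← hw, weight_wt, pow_add]
    simp [mul_comm]
  rw [this]; ring

/-- a relation between the factors `i, j` on the set `Z` -/
def Rel (Z : Set (V → ℂ)) (i j : Fin 4) : Prop :=
  ∃ (F : MvPolynomial V ℂ) (d : Fin 4 → ℕ), F ≠ 0 ∧ IsWeightedHomogeneous wt F d ∧
    (∀ k, k ≠ i → k ≠ j → d k = 0) ∧ ∀ p ∈ Z, aeval p F = 0

/-- a relation between the factors `i, j` on the whole family -/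
def GRel {A : Type} [CommRing A] (I : Ideal (MvPolynomial V A)) (i j : Fin 4) : Prop :=
  ∃ (G : MvPolynomial V A) (d : Fin 4 → ℕ), G ≠ 0 ∧ IsWeightedHomogeneous wt G d ∧
    (∀ k, k ≠ i → k ≠ j → d k = 0) ∧ ∀ ε, chart A ε G ∈ I.map (chart A ε)

lemma eval₂_chart {A : Type} [CommRing A] (φ : A →+* ℂ) (ε : Fin 4 → Bool) (t : Fin 4 → ℂ)
    (f : MvPolynomial V A) : eval₂Hom φ t (chart A ε f) = eval₂Hom φ (cpt ε t) f := by
  letI : Algebra A ℂ := φ.toAlgebra
  exact aeval_chart ε t f

lemma exists_chart {p : V → ℂ} (hp : p ∈ Pts) : ∃ (ε : Fin 4 → Bool) (t c : Fin 4 → ℂ),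
    (∀ k, c k ≠ 0) ∧ p = fun v => c v.1 * cpt ε t v := by
  classical
  obtain ⟨c, hc⟩ : ∃ c : Fin 4 → ℂ, c = fun k => if p (k, true) = 0 then p (k, false) else p (k, true) :=
    ⟨_, rfl⟩
  have h0 : ∀ k, c k ≠ 0 := by
    intro k
    by_cases h : p (k, true) = 0
    · simpa [hc, h] using hp k
    · simp [hc, h]
  refine ⟨fun k => decide (p (k, true) = 0), fun k => p (k, false) / c k, c, h0, ?_⟩
  funext ⟨k, b⟩
  have := h0 k
  cases b
  · simp only [cpt]; simp; field_simp
  · by_cases h : p (k, true) = 0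
    · have e : c k = p (k, false) := by simp [hc, h]
      simp only [cpt, h]; simp
      right; rw [← e]; field_simp; simp
    · simp [cpt, h, hc]

lemma aeval_map_eq {A : Type} [CommRing A] (φ : A →+* ℂ) (p : V → ℂ) (f : MvPolynomial V A) :
    aeval p (MvPolynomial.map φ f) = eval₂Hom φ p f := by
  rw [aeval_eq_eval, eval_map]; rfl

lemma exists_functional {A : Type} [CommRing A] [IsDomain A] [Algebra ℂ A] (ψ : A →ₐ[ℂ] ℂ)
    {G : MvPolynomial V A} (hG : G ≠ 0) : ∃ (J : Ideal A) (lam : A →ₗ[ℂ] ℂ),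
      (∀ m, coeff m G ∈ J) ∧ (∃ m, lam (coeff m G) ≠ 0) ∧
        ∀ r : A, ∀ a ∈ J, lam (r * a) = ψ r * lam a := by
  classical
  obtain ⟨J, hJ⟩ : ∃ J : Ideal A, J = Ideal.span (G.support.image fun m => coeff m G : Finset A) :=
    ⟨_, rfl⟩
  have hmem : ∀ m, coeff m G ∈ J := by
    intro m
    by_cases h : coeff m G = 0
    · rw [h]; exact J.zero_mem
    · rw [hJ]
      exact Ideal.subset_span (by simpa using ⟨m, h, rfl⟩)
  have hfg : J.FG := ⟨_, hJ.symm⟩
  have hnot : ∃ m, coeff m G ∉ RingHom.ker (ψ : A →+* ℂ) • J := by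
    by_contra hall
    push Not at hall
    have hle : J ≤ RingHom.ker (ψ : A →+* ℂ) • J := by
      conv_lhs => rw [hJ]
      rw [Ideal.span_le]
      intro x hx
      simp only [Finset.coe_image, Set.mem_image] at hx
      obtain ⟨m, -, rfl⟩ := hx
      exact hall m
    obtain ⟨r, hr1, hr⟩ :=
      Submodule.exists_sub_one_mem_and_smul_eq_zero_of_fg_of_le_smul _ J hfg hle
    have hr0 : r ≠ 0 := by
      rintro rfl
      simp [RingHom.mem_ker] at hr1
    apply hG
    ext m
    have := hr _ (hmem m)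
    simpa [hr0] using this
  obtain ⟨m, hm⟩ := hnot
  obtain ⟨lam, h1, h2⟩ := Submodule.exists_dual_map_eq_bot_of_notMem
    (p := (RingHom.ker (ψ : A →+* ℂ) • J : Ideal A).restrictScalars ℂ) (x := coeff m G) hm
    inferInstance
  refine ⟨J, lam, hmem, ⟨m, h1⟩, fun r a ha => ?_⟩
  have hk : lam ((r - algebraMap ℂ A (ψ r)) * a) = 0 := by
    have h3 : (r - algebraMap ℂ A (ψ r)) * a ∈ (RingHom.ker (ψ : A →+* ℂ) • J : Ideal A) := by
      rw [Ideal.smul_eq_mul]
      exact Ideal.mul_mem_mul (by simp [RingHom.mem_ker]) ha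
    have : lam ((r - algebraMap ℂ A (ψ r)) * a) ∈
        ((RingHom.ker (ψ : A →+* ℂ) • J : Ideal A).restrictScalars ℂ).map lam :=
      ⟨_, h3, rfl⟩
    rwa [h2, Submodule.mem_bot] at this
  have e : r * a = (r - algebraMap ℂ A (ψ r)) * a + ψ r • a := by
    rw [Algebra.smul_def]; ring
  rw [e, map_add, hk, map_smul, zero_add, smul_eq_mul]

theorem rel_of_grel {A : Type} [CommRing A] [IsDomain A] [Algebra ℂ A]
    {I : Ideal (MvPolynomial V A)} (hI : MultiHom I) (hflat : ∀ ε, Module.Flat A (ChartRing ε I))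
    (ψ : A →ₐ[ℂ] ℂ) {i j : Fin 4} (h : GRel I i j) : Rel (fibre I ψ) i j := by
  classical
  obtain ⟨G, d, hG0, hGd, hd, hG⟩ := h
  obtain ⟨J, lam, hJ, ⟨m0, hm0⟩, hlam⟩ := exists_functional ψ hG0
  obtain ⟨F, hF⟩ : ∃ F : MvPolynomial V ℂ, F = ∑ m ∈ G.support, monomial m (lam (coeff m G)) :=
    ⟨_, rfl⟩
  have hc : ∀ m, coeff m F = lam (coeff m G) := by
    intro m
    rw [hF, coeff_sum]
    simp only [coeff_monomial, Finset.sum_ite_eq']
    split_ifs with h
    · rfl
    · rw [MvPolynomial.notMem_support_iff.mp h, map_zero]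
  have hFd : IsWeightedHomogeneous wt F d := by
    intro m hm
    apply hGd
    intro h0
    rw [hc, h0, map_zero] at hm
    exact hm rfl
  refine ⟨F, d, fun h0 => hm0 (by rw [← hc, h0, coeff_zero]), hFd, hd, ?_⟩
  rintro p ⟨hp, hz⟩
  obtain ⟨ε, t, c, hc0, rfl⟩ := exists_chart hp
  have hvan : ∀ f ∈ I, eval₂Hom (ψ : A →+* ℂ) (cpt ε t) f = 0 := by
    intro f hf
    rw [← sum_weightedHomogeneousComponent wt f,
      map_finsum _ (weightedHomogeneousComponent_finsupp f)]
    apply finsum_eq_zero_of_forall_eq_zero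
    intro e
    have h1 := hz _ (Ideal.mem_map_of_mem _ (hI f hf e))
    rw [aeval_map_eq, scale _ c _ (weightedHomogeneousComponent_isWeightedHomogeneous e f)] at h1
    exact (mul_eq_zero.mp h1).resolve_left
      (Finset.prod_ne_zero_iff.mpr fun k _ => pow_ne_zero _ (hc0 k))
  have hker : ∀ g ∈ I.map (chart A ε), eval₂Hom (ψ : A →+* ℂ) t g = 0 := by
    have : I.map (chart A ε) ≤ RingHom.ker (eval₂Hom (ψ : A →+* ℂ) t) := by
      rw [Ideal.map_le_iff_le_comap]
      intro f hf
      rw [Ideal.mem_comap, RingHom.mem_ker, eval₂_chart]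
      exact hvan f hf
    exact fun g hg => this hg
  let ev : ChartRing ε I →+* ℂ := Ideal.Quotient.lift _ (eval₂Hom (ψ : A →+* ℂ) t) hker
  have hev : ∀ g, ev (Ideal.Quotient.mk _ g) = eval₂Hom (ψ : A →+* ℂ) t g := fun g => rfl
  have hsm : ∀ (a : A) (x : ChartRing ε I), ev (a • x) = ψ a * ev x := by
    intro a x
    obtain ⟨g, rfl⟩ := Ideal.Quotient.mk_surjective x
    have : a • Ideal.Quotient.mk (I.map (chart A ε)) g = Ideal.Quotient.mk _ (C a * g) := by
      rw [← smul_eq_C_mul]; rfl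
    rw [this, hev, hev, map_mul]
    simp
  have hrel : ∑ m : G.support, coeff m.1 G •
      Ideal.Quotient.mk (I.map (chart A ε)) (chart A ε (monomial m.1 1)) = 0 := by
    have : ∀ m : G.support, coeff m.1 G •
        Ideal.Quotient.mk (I.map (chart A ε)) (chart A ε (monomial m.1 1)) =
        Ideal.Quotient.mk (I.map (chart A ε)) (chart A ε (monomial m.1 (coeff m.1 G))) := by
      intro m
      have e : (monomial m.1 (coeff m.1 G) : MvPolynomial V A) = coeff m.1 G • monomial m.1 1 := by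
        rw [smul_monomial, smul_eq_mul, mul_one]
      rw [e, map_smul]; rfl
    simp only [this]
    rw [← map_sum, ← map_sum, Finset.sum_coe_sort G.support (fun m => monomial m (coeff m G)),
      ← G.as_sum, Ideal.Quotient.eq_zero_iff_mem]
    exact hG ε
  have := hflat ε
  obtain ⟨k, a, y, hx, ha⟩ := Module.Flat.isTrivialRelation_of_sum_smul_eq_zero hrel
  have hF1 : aeval (cpt ε t) F = 0 := by
    rw [hF, map_sum, ← Finset.sum_coe_sort G.support]
    have : ∀ m : G.support, aeval (cpt ε t) (monomial m.1 (lam (coeff m.1 G))) =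
        ∑ l, lam (a m l * coeff m.1 G) * ev (y l) := by
      intro m
      have h1 : ev (Ideal.Quotient.mk _ (chart A ε (monomial m.1 1))) =
          ∑ l, ψ (a m l) * ev (y l) := by
        have h0 := hx m
        beta_reduce at h0
        rw [h0, map_sum]
        simp only [hsm]
      rw [hev, eval₂_chart, eval₂Hom_monomial, map_one, one_mul] at h1
      rw [aeval_monomial, h1, Finset.mul_sum]
      refine Finset.sum_congr rfl fun l _ => ?_
      rw [hlam _ _ (hJ _)]
      simp only [Algebra.algebraMap_self, RingHom.id_apply]; ring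
    simp only [this]
    rw [Finset.sum_comm]
    refine Finset.sum_eq_zero fun l _ => ?_
    rw [← Finset.sum_mul, ← map_sum]
    have : ∑ m : G.support, a m l * coeff m.1 G = 0 := by
      rw [← ha l]
      exact Finset.sum_congr rfl fun m _ => mul_comm _ _
    rw [this, map_zero, zero_mul]
  have h2 := scale (RingHom.id ℂ) c (cpt ε t) hFd
  have h3 : eval₂Hom (RingHom.id ℂ) (cpt ε t) F = 0 := hF1
  rw [h3, mul_zero] at h2
  exact h2

end Pool.Agent.H.MP_c10209_ag
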