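import Pool.Agent.H.MP_c10209_ag.C

namespace Pool.Agent.H.MP_c10209_ag

open MvPolynomial

/-- coordinates of the factors `i, j` -/
def vs (i j : Fin 4) : Set V := {v | v.1 = i ∨ v.1 = j}

lemma mem_supported_iff {A : Type} [CommRing A] {i j : Fin 4} {G : MvPolynomial V A} :
    G ∈ supported A (vs i j) ↔ ∀ m, coeff m G ≠ 0 → ∀ k, k ≠ i → k ≠ j → Finsupp.weight wt m k = 0 := by
  rw [mem_supported]
  constructor
  · intro h m hm k hi hj
    have : ∀ b, m (k, b) = 0 := by
      intro b
      by_contra hb
      have : (k, b) ∈ vs i j := h ((mem_vars_iff_mem_support _).mpr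
        ⟨m, mem_support_iff.mpr hm, Finsupp.mem_support_iff.mpr hb⟩)
      rcases this with h | h
      · exact hi h
      · exact hj h
    rw [weight_wt, this, this]
  · intro h v hv
    obtain ⟨m, hm, hv⟩ := (mem_vars_iff_mem_support _).mp hv
    by_contra hn
    simp only [vs, Set.mem_ofPred_eq, not_or] at hn
    have := h m (mem_support_iff.mp hm) v.1 hn.1 hn.2
    rw [weight_wt] at this
    apply Finsupp.mem_support_iff.mp hv
    obtain ⟨k, b⟩ := v
    cases b <;> simp only at this ⊢ <;> omega

lemma comp_mul_monomial {A : Type} [CommRing A] (G : MvPolynomial V A) (d : Fin 4 → ℕ)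
    (m : V →₀ ℕ) : weightedHomogeneousComponent wt (d + Finsupp.weight wt m) (G * monomial m 1) =
      weightedHomogeneousComponent wt d G * monomial m 1 := by
  ext n
  rw [coeff_weightedHomogeneousComponent, coeff_mul_monomial', coeff_mul_monomial',
    coeff_weightedHomogeneousComponent]
  by_cases h : m ≤ n
  · have e : Finsupp.weight wt n = Finsupp.weight wt (n - m) + Finsupp.weight wt m := by
      rw [← map_add, tsub_add_cancel_of_le h]
    simp only [h, if_true, e, add_left_inj]
    split_ifs <;> simp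
  · simp [h]

lemma null {K : Ideal (MvPolynomial V ℂ)} {F : MvPolynomial V ℂ}
    (hF : ∀ p ∈ Pts ∩ zeroLocus ℂ K, aeval p F = 0) :
    ∃ N : ℕ, ∀ τ : Fin 4 → Bool, (F * ∏ k, X (k, τ k)) ^ N ∈ K := by
  have h : ∀ τ : Fin 4 → Bool, ∃ n : ℕ, (F * ∏ k, X (k, τ k)) ^ n ∈ K := by
    intro τ
    have : F * ∏ k, X (k, τ k) ∈ vanishingIdeal ℂ (zeroLocus ℂ K) := by
      intro p hp
      by_cases hP : p ∈ Pts
      · rw [map_mul, hF p ⟨hP, hp⟩, zero_mul]
      · simp only [Pts, Set.mem_ofPred_eq, not_forall, not_or, not_not] at hP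
        obtain ⟨k, h1, h2⟩ := hP
        rw [map_mul, map_prod, Finset.prod_eq_zero (Finset.mem_univ k), mul_zero]
        cases τ k <;> simp [h1, h2]
    rwa [vanishingIdeal_zeroLocus_eq_radical] at this
  choose n hn using h
  refine ⟨∑ τ, n τ, fun τ => ?_⟩
  exact Ideal.pow_mem_of_pow_mem K (hn τ)
    (Finset.single_le_sum (f := n) (fun _ _ => Nat.zero_le _) (Finset.mem_univ τ))

/-- complementary degree -/
def cdeg (i j : Fin 4) (D : ℕ) : Fin 4 → ℕ := fun k => if k = i ∨ k = j then 0 else D

lemma dvd_mono {i j : Fin 4} (hij : i ≠ j) (N : ℕ) {m : V →₀ ℕ}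
    (hm : Finsupp.weight wt m = cdeg i j (2 * N)) : ∃ τ : Fin 4 → Bool,
      (∏ k, X (k, τ k) : MvPolynomial V ℂ) ^ N ∣
        (X (i, false) * X (j, false)) ^ N * monomial m 1 := by
  classical
  refine ⟨fun k => if k = i ∨ k = j then false else decide (m (k, false) < N), ?_⟩
  rw [← Finset.prod_pow]
  simp only [X_pow_eq_monomial, mul_pow, monomial_mul, mul_one]
  rw [← monomial_sum_one, monomial_dvd_monomial]
  refine ⟨Or.inr ?_, dvd_rfl⟩
  rintro ⟨k, b⟩
  rw [Finset.sum_apply', Finset.sum_eq_single k (by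
    intro l _ hl
    exact Finsupp.single_eq_of_ne (fun h => hl (congrArg Prod.fst h).symm)) (by simp)]
  have hk := congrFun hm k
  rw [weight_wt] at hk
  simp only [Finsupp.add_apply, Finsupp.single_apply, Prod.mk.injEq, true_and]
  by_cases h1 : k = i
  · subst h1
    cases b <;> simp
    omega
  by_cases h2 : k = j
  · subst h2
    cases b <;> simp
    omega
  · simp only [cdeg, h1, h2, or_self, if_false] at hk ⊢
    have h1' : ¬ i = k := fun h => h1 h.symm
    have h2' : ¬ j = k := fun h => h2 h.symm
    cases b <;> by_cases h3 : m (k, false) < N <;> simp [h1', h2', h3] <;> omega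

lemma finite_T (e : Fin 4 → ℕ) : {m : V →₀ ℕ | Finsupp.weight wt m = e}.Finite := by
  classical
  refine (Set.finite_Iic (Finsupp.equivFunOnFinite.symm fun v : V => e v.1)).subset ?_
  intro m hm
  rintro ⟨k, b⟩
  have hk := congrFun hm k
  rw [weight_wt] at hk
  cases b <;> simp <;> omega

lemma grel_of_ann {A : Type} [CommRing A] {I : Ideal (MvPolynomial V A)} (hI : MultiHom I)
    {i j : Fin 4} {D : ℕ} {G0 : MvPolynomial V A} (h0 : G0 ≠ 0) (hs : G0 ∈ supported A (vs i j))
    (hann : ∀ m, Finsupp.weight wt m = cdeg i j D → G0 * monomial m 1 ∈ I) : GRel I i j := by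
  classical
  obtain ⟨m0, hm0⟩ := ne_zero_iff.mp h0
  obtain ⟨G, hG⟩ : ∃ G, G = weightedHomogeneousComponent wt (Finsupp.weight wt m0) G0 := ⟨_, rfl⟩
  have h1 : ∀ m, Finsupp.weight wt m = cdeg i j D → G * monomial m 1 ∈ I := by
    intro m hm
    rw [hG, ← comp_mul_monomial]
    exact hI _ (hann m hm) _
  have h2 : ∀ H : MvPolynomial V A, IsWeightedHomogeneous wt H (cdeg i j D) → G * H ∈ I := by
    intro H hH
    rw [H.as_sum, Finset.mul_sum]
    refine Ideal.sum_mem _ fun m hm => ?_
    have e : G * monomial m (coeff m H) = C (coeff m H) * (G * monomial m 1) := by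
      rw [mul_left_comm, C_mul_monomial, mul_one]
    rw [e]
    exact I.mul_mem_left _ (h1 m (hH (mem_support_iff.mp hm)))
  refine ⟨G, Finsupp.weight wt m0, ?_, hG ▸ weightedHomogeneousComponent_isWeightedHomogeneous _ _,
    mem_supported_iff.mp hs m0 hm0, fun ε => ?_⟩
  · intro h
    apply hm0
    have := congrArg (coeff m0) h
    rwa [hG, coeff_weightedHomogeneousComponent, if_pos rfl] at this
  · obtain ⟨H, hH⟩ : ∃ H : MvPolynomial V A, H = ∏ k : Fin 4,
        (X (k, true) + if ε k then X (k, false) else 0) ^ cdeg i j D k := ⟨_, rfl⟩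
    have hHd : IsWeightedHomogeneous wt H (cdeg i j D) := by
      have := IsWeightedHomogeneous.prod (w := wt) Finset.univ (fun k : Fin 4 =>
        ((X (k, true) + if ε k then X (k, false) else 0) ^ cdeg i j D k : MvPolynomial V A))
        (fun k => cdeg i j D k • (Pi.single k 1 : Fin 4 → ℕ)) (fun k _ => by
          apply IsWeightedHomogeneous.pow
          apply IsWeightedHomogeneous.add (isWeightedHomogeneous_X A wt (k, true))
          split_ifs
          · exact isWeightedHomogeneous_X A wt (k, false)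
          · exact isWeightedHomogeneous_zero _ _ _)
      rw [hH]
      convert this using 1
      ext k
      simp [Finset.sum_apply, Pi.single_apply]
    have hc : chart A ε H = 1 := by
      rw [hH, map_prod]
      refine Finset.prod_eq_one fun k _ => ?_
      rw [map_pow]
      have : chart A ε (X (k, true) + if ε k then X (k, false) else 0) = 1 := by
        by_cases h : ε k <;> simp [chart, h]
      rw [this, one_pow]
    have := Ideal.mem_map_of_mem (chart A ε) (h2 H hHd)
    rwa [map_mul, hc, mul_one] at this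

end Pool.Agent.H.MP_c10209_ag
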