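import Mathlib

namespace Pool.Agent.H.MP_c10209_ag

open MvPolynomial

/-- Homogeneous coordinates of `(P¹)⁴`: `(i, false)` is `x_i` and `(i, true)` is `y_i`. -/
abbrev V : Type := Fin 4 × Bool

/-- The multidegree of a coordinate: `x_i` and `y_i` have degree `e_i`. -/
def wt (v : V) : Fin 4 → ℕ := Pi.single v.1 1

/-- Multihomogeneous ideals: these describe closed subschemes of `(P¹)⁴` over `A`. -/
def MultiHom {A : Type} [CommRing A] (I : Ideal (MvPolynomial V A)) : Prop :=
  ∀ f ∈ I, ∀ d : Fin 4 → ℕ, weightedHomogeneousComponent wt d f ∈ I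

/-- Restriction to the affine chart `t ↦ ([t_i : 1 - ε_i t_i])_i`. The 16 charts cover `(P¹)⁴`. -/
noncomputable def chart (A : Type) [CommRing A] (ε : Fin 4 → Bool) :
    MvPolynomial V A →ₐ[A] MvPolynomial (Fin 4) A :=
  aeval fun v => if v.2 then 1 - (if ε v.1 then X v.1 else 0) else X v.1

/-- Coordinate ring of the closed subscheme cut out by `I` in the chart `ε`. -/
abbrev ChartRing {A : Type} [CommRing A] (ε : Fin 4 → Bool) (I : Ideal (MvPolynomial V A)) :
    Type :=
  MvPolynomial (Fin 4) A ⧸ I.map (chart A ε)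

/-- Homogeneous coordinate vectors of complex points of `(P¹)⁴`. -/
def Pts : Set (V → ℂ) := {p | ∀ i, p (i, false) ≠ 0 ∨ p (i, true) ≠ 0}

/-- The Schubert variety of `s ∈ W = (ℤ/2)⁴`: `P¹` in the factors `i ∈ s`, the Borel-fixed point
`[0 : 1]` in the others. -/
def Schub (s : Finset (Fin 4)) : Set (V → ℂ) := {p | p ∈ Pts ∧ ∀ i, i ∉ s → p (i, false) = 0}

/-- The union `X_S`. -/
def XS (S : Set (Finset (Fin 4))) : Set (V → ℂ) := ⋃ s ∈ S, Schub s

/-- Complex points of the fibre over the point `φ` of the base. -/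
def fibre {A : Type} [CommRing A] [Algebra ℂ A] (I : Ideal (MvPolynomial V A)) (φ : A →ₐ[ℂ] ℂ) :
    Set (V → ℂ) :=
  Pts ∩ zeroLocus ℂ (I.map (MvPolynomial.map (φ : A →+* ℂ)))

/-- Cohen-Macaulay ring: every local ring has a regular sequence of length its dimension. -/
def IsCM (R : Type) [CommRing R] : Prop :=
  ∀ (p : Ideal R) [p.IsPrime], ∃ rs : List (Localization.AtPrime p),
    RingTheory.Sequence.IsRegular (Localization.AtPrime p) rs ∧
      (rs.length : WithBot ℕ∞) = ringKrullDim (Localization.AtPrime p)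

end Pool.Agent.H.MP_c10209_ag
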