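import Pool.Agent.H.MP_c10209_ag.D

namespace Pool.Agent.H.MP_c10209_ag

open MvPolynomial

lemma det_trick {R M : Type} [CommRing R] [AddCommGroup M] [Module R M] (N : Submodule R M)
    (hN : N.FG) (u : R) (P : Ideal R) (h : ∀ x ∈ N, u • x ∈ P • N) :
    ∃ (n : ℕ) (g : R), g - u ^ n ∈ P ∧ ∀ x ∈ N, g • x = 0 := by
  have : Module.Finite R N := Module.Finite.iff_fg.mpr hN
  obtain ⟨p, hp, -, hc, h0⟩ :=
    LinearMap.exists_monic_and_natDegree_eq_and_coeff_mem_pow_and_aeval_eq_zero R
      (algebraMap R (Module.End R N) u) P (by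
        rintro _ ⟨x, rfl⟩
        rw [Submodule.mem_smul_top_iff]
        exact h x x.2)
  refine ⟨p.natDegree, p.eval u, ?_, fun x hx => ?_⟩
  · rw [Polynomial.eval_eq_sum_range, Finset.sum_range_succ, hp.coeff_natDegree, one_mul,
      add_sub_cancel_right]
    refine Ideal.sum_mem _ fun k hk => P.mul_mem_right _ ?_
    exact Ideal.pow_le_self (by have := Finset.mem_range.mp hk; omega) (hc k)
  · rw [Polynomial.aeval_algebraMap_apply_eq_algebraMap_eval] at h0
    have := congrArg (fun f : Module.End R N => ((f ⟨x, hx⟩ : N) : M)) h0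
    simpa using this

theorem grel_of_rel {A : Type} [CommRing A] [Algebra ℂ A]
    {I : Ideal (MvPolynomial V A)} (hI : MultiHom I)
    (φ : A →ₐ[ℂ] ℂ) {i j : Fin 4} (hij : i ≠ j) (h : Rel (fibre I φ) i j) : GRel I i j := by
  classical
  obtain ⟨F, d, hF0, hFd, hd, hF⟩ := h
  obtain ⟨N, hN⟩ := null hF
  obtain ⟨F', hF'⟩ : ∃ F' : MvPolynomial V A, F' = MvPolynomial.map (algebraMap ℂ A) F := ⟨_, rfl⟩
  have hmap : MvPolynomial.map (φ : A →+* ℂ) F' = F := by
    rw [hF', map_map]
    have : (φ : A →+* ℂ).comp (algebraMap ℂ A) = RingHom.id ℂ := by ext; simp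
    rw [this, map_id]
  have hF'd : IsWeightedHomogeneous wt F' d := by
    intro m hm
    apply hFd
    intro h0
    rw [hF', coeff_map, h0, map_zero] at hm
    exact hm rfl
  obtain ⟨u, hu⟩ : ∃ u : MvPolynomial V A, u = (F' * (X (i, false) * X (j, false))) ^ N := ⟨_, rfl⟩
  obtain ⟨e, he⟩ : ∃ e : Fin 4 → ℕ, e = N • (d + (wt (i, false) + wt (j, false))) := ⟨_, rfl⟩
  have hue : IsWeightedHomogeneous wt u e := by
    rw [hu, he]
    exact (hF'd.mul ((isWeightedHomogeneous_X A wt _).mul (isWeightedHomogeneous_X A wt _))).pow N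
  have he0 : ∀ k, k ≠ i → k ≠ j → e k = 0 := by
    intro k h1 h2
    simp [he, hd k h1 h2, wt, Pi.single_eq_of_ne h1, Pi.single_eq_of_ne h2]
  have hus : u ∈ supported A (vs i j) :=
    mem_supported_iff.mpr fun m hm k h1 h2 => by rw [hue hm, he0 k h1 h2]
  have hmu : MvPolynomial.map (φ : A →+* ℂ) u = (F * (X (i, false) * X (j, false))) ^ N := by
    simp [hu, hmap]
  have hsurj : Function.Surjective (MvPolynomial.map (σ := V) (φ : A →+* ℂ)) :=
    map_surjective _ fun z => ⟨algebraMap ℂ A z, by simp⟩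
  let P : Ideal (supported A (vs i j)) :=
    RingHom.ker ((MvPolynomial.map (φ : A →+* ℂ)).comp (supported A (vs i j)).val.toRingHom)
  have hP : ∀ g : supported A (vs i j), g ∈ P ↔ MvPolynomial.map (φ : A →+* ℂ) g.1 = 0 :=
    fun g => Iff.rfl
  let T : Set (MvPolynomial V A ⧸ I) := (fun m => Ideal.Quotient.mk I (monomial m 1)) ''
    {m | Finsupp.weight wt m = cdeg i j (2 * N)}
  have hT : T.Finite := (finite_T _).image _
  let M : Submodule (supported A (vs i j)) (MvPolynomial V A ⧸ I) := Submodule.span _ T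
  have hsm : ∀ (g : supported A (vs i j)) (f : MvPolynomial V A),
      g • Ideal.Quotient.mk I f = Ideal.Quotient.mk I (g.1 * f) := fun g f => rfl
  have key : ∀ x ∈ T, (⟨u, hus⟩ : supported A (vs i j)) • x ∈ P • M := by
    rintro _ ⟨m, hm, rfl⟩
    obtain ⟨τ, c, hc⟩ := dvd_mono hij N hm
    have h1 : MvPolynomial.map (φ : A →+* ℂ) (u * monomial m 1) ∈
        I.map (MvPolynomial.map (φ : A →+* ℂ)) := by
      rw [map_mul, hmu, map_monomial, map_one, mul_pow, mul_assoc, hc, ← mul_assoc, ← mul_pow]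
      exact Ideal.mul_mem_right _ _ (hN τ)
    obtain ⟨f, hf, hf'⟩ := (Ideal.mem_map_iff_of_surjective _ hsurj).mp h1
    have hw : IsWeightedHomogeneous wt (u * monomial m 1) (e + cdeg i j (2 * N)) :=
      hue.mul (isWeightedHomogeneous_monomial _ _ _ hm)
    obtain ⟨g, hg⟩ : ∃ g, g = u * monomial m 1 -
      weightedHomogeneousComponent wt (e + cdeg i j (2 * N)) f := ⟨_, rfl⟩
    have hgw : IsWeightedHomogeneous wt g (e + cdeg i j (2 * N)) :=
      hg ▸ hw.sub (weightedHomogeneousComponent_isWeightedHomogeneous _ _)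
    have hgc : ∀ n, φ (coeff n g) = 0 := by
      intro n
      by_cases hn : Finsupp.weight wt n = e + cdeg i j (2 * N)
      · have := congrArg (coeff n) hf'
        rw [coeff_map, coeff_map] at this
        rw [hg, coeff_sub, coeff_weightedHomogeneousComponent, if_pos hn, map_sub]
        exact sub_eq_zero.mpr this.symm
      · rw [hgw.coeff_eq_zero _ hn, map_zero]
    have e1 : Ideal.Quotient.mk I (u * monomial m 1) = Ideal.Quotient.mk I g := by
      rw [Ideal.Quotient.eq, hg, sub_sub_cancel]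
      exact hI f hf _
    beta_reduce
    rw [hsm, e1, g.as_sum, map_sum]
    refine Submodule.sum_mem _ fun n hn => ?_
    have hn' := hgw (mem_support_iff.mp hn)
    have hin : (monomial (n.filter fun v => v.1 = i ∨ v.1 = j) (coeff n g) : MvPolynomial V A) ∈
        supported A (vs i j) := by
      refine mem_supported_iff.mpr fun m' hm' k h1 h2 => ?_
      rw [coeff_monomial] at hm'
      split_ifs at hm' with h
      · rw [← h, weight_wt]
        simp [Finsupp.filter_apply, h1, h2]
      · exact absurd rfl hm'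
    have e2 : (monomial n (coeff n g) : MvPolynomial V A) =
        monomial (n.filter fun v => v.1 = i ∨ v.1 = j) (coeff n g) *
          monomial (n.filter fun v => ¬ (v.1 = i ∨ v.1 = j)) 1 := by
      rw [monomial_mul, mul_one, Finsupp.filter_pos_add_filter_neg]
    rw [e2, ← hsm ⟨_, hin⟩]
    refine Submodule.smul_mem_smul ((hP _).mpr ?_) (Submodule.subset_span ⟨_, ?_, rfl⟩)
    · rw [map_monomial]
      have : (φ : A →+* ℂ) (coeff n g) = 0 := hgc n
      rw [this, monomial_zero]
    · ext k
      have hk := congrFun hn' k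
      rw [weight_wt] at hk ⊢
      by_cases h : k = i ∨ k = j
      · have h' : ¬ ¬ (k = i ∨ k = j) := not_not.mpr h
        simp only [Finsupp.filter_apply, h', if_false, cdeg, h, if_true]
        simp
      · have h' := not_or.mp h
        simpa [Finsupp.filter_apply, h, h'.1, h'.2, he0 k h'.1 h'.2] using hk
  obtain ⟨n, g, hg1, hg2⟩ := det_trick M (Submodule.fg_span hT) ⟨u, hus⟩ P (by
    intro x hx
    induction hx using Submodule.span_induction with
    | mem x hx => exact key x hx
    | zero => rw [smul_zero]; exact Submodule.zero_mem _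
    | add x y _ _ hx hy => rw [smul_add]; exact Submodule.add_mem _ hx hy
    | smul a x _ hx => rw [smul_comm]; exact Submodule.smul_mem _ _ hx)
  refine grel_of_ann hI (D := 2 * N) (G0 := g.1) ?_ g.2 fun m hm => ?_
  · intro h0
    have h1 := (hP _).mp hg1
    have h2 : ((g - (⟨u, hus⟩ : supported A (vs i j)) ^ n : supported A (vs i j)) :
      MvPolynomial V A) = g.1 - u ^ n := rfl
    rw [h2, h0, zero_sub, map_neg, neg_eq_zero, map_pow, hmu] at h1
    exact pow_ne_zero _ (pow_ne_zero _ (mul_ne_zero hF0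
      (mul_ne_zero (X_ne_zero _) (X_ne_zero _)))) h1
  · have := hg2 _ (Submodule.subset_span ⟨m, hm, rfl⟩)
    rwa [hsm, Ideal.Quotient.eq_zero_iff_mem] at this

end Pool.Agent.H.MP_c10209_ag
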