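import Pool.Agent.H.MP_c10209_ag.E

namespace Pool.Agent.H.MP_c10209_ag

open MvPolynomial

lemma pair_indep_iff {L : Type} [Field L] [Algebra ℂ L] {a b : L} :
    AlgebraicIndependent ℂ ![a, b] ↔ a ≠ b ∧ (AlgebraicIndependent.matroid ℂ L).Indep {a, b} := by
  have hr : Set.range ![a, b] = {a, b} := by
    rw [Matrix.range_cons, Matrix.range_cons, Matrix.range_empty, Set.union_empty]; rfl
  constructor
  · intro h
    refine ⟨fun hab => ?_, ?_⟩
    · have := h.injective (a₁ := 0) (a₂ := 1) (by simpa using hab)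
      simp at this
    · rw [← hr]
      exact (algebraicIndependent_subtype_range h.injective).mpr h
  · rintro ⟨hab, h⟩
    have hinj : Function.Injective ![a, b] := by
      intro x y hxy
      fin_cases x <;> fin_cases y <;> simp_all [eq_comm]
    rw [← hr] at h
    exact (algebraicIndependent_subtype_range hinj).mp h

lemma exchange {L : Type} [Field L] [Algebra ℂ L] {a b c d : L}
    (h1 : AlgebraicIndependent ℂ ![a, b]) (h2 : AlgebraicIndependent ℂ ![c, d]) :
    AlgebraicIndependent ℂ ![a, c] ∨ AlgebraicIndependent ℂ ![a, d] := by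
  rw [pair_indep_iff] at h1 h2
  have ha : (AlgebraicIndependent.matroid ℂ L).Indep {a} := h1.2.subset (by simp)
  obtain ⟨e, ⟨he1, he2⟩, he⟩ := ha.augment h2.2 (by
    rw [Set.encard_singleton, Set.encard_pair h2.1]; exact Nat.one_lt_ofNat)
  rw [Set.pair_comm] at he
  have hne : a ≠ e := fun h => he2 (by simp [h])
  rcases he1 with rfl | rfl
  · exact Or.inl (pair_indep_iff.mpr ⟨hne, he⟩)
  · exact Or.inr (pair_indep_iff.mpr ⟨hne, he⟩)

/-- dehomogenisation -/
noncomputable def dh (i : Fin 4) : MvPolynomial V ℂ →ₐ[ℂ] B2 :=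
  aeval fun v => if v.2 then 1 else if v.1 = i then X 0 else X 1

lemma dehom {L : Type} [Field L] [Algebra ℂ L] (q : V → L) (hq : ∀ k, q (k, true) ≠ 0)
    {i j : Fin 4} (hij : i ≠ j) {F : MvPolynomial V ℂ} {d : Fin 4 → ℕ}
    (hF : IsWeightedHomogeneous wt F d) (hd : ∀ k, k ≠ i → k ≠ j → d k = 0) :
    aeval q F = (∏ k, q (k, true) ^ d k) *
      aeval ![q (i, false) / q (i, true), q (j, false) / q (j, true)] (dh i F) := by
  have hs : F ∈ supported ℂ (vs i j) :=
    mem_supported_iff.mpr fun m hm k h1 h2 => by rw [hF hm, hd k h1 h2]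
  have h1 := scale (algebraMap ℂ L) (fun k => q (k, true))
    (fun v => if v.2 then 1 else q (v.1, false) / q (v.1, true)) hF
  have e : (fun v : V => q (v.1, true) * if v.2 then 1 else q (v.1, false) / q (v.1, true)) = q := by
    funext ⟨k, b⟩
    have := hq k
    cases b
    · simp; field_simp
    · simp
  rw [e] at h1
  refine h1.trans ?_
  congr 1
  rw [dh, ← AlgHom.comp_apply, comp_aeval]
  refine eval₂Hom_congr' rfl ?_ rfl
  rintro ⟨k, b⟩ hv -
  have hk : k = i ∨ k = j := mem_supported.mp hs hv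
  cases b
  · rcases hk with rfl | rfl
    · simp
    · simp [hij.symm]
  · simp

lemma dh_ne_zero {i j : Fin 4} (hij : i ≠ j) {F : MvPolynomial V ℂ} {d : Fin 4 → ℕ} (h0 : F ≠ 0)
    (hF : IsWeightedHomogeneous wt F d) (hd : ∀ k, k ≠ i → k ≠ j → d k = 0) : dh i F ≠ 0 := by
  intro h
  have hinj := IsFractionRing.injective (MvPolynomial V ℂ) (FractionRing (MvPolynomial V ℂ))
  have := dehom (fun v => algebraMap (MvPolynomial V ℂ) (FractionRing (MvPolynomial V ℂ)) (X v))
    (fun k => by simp [hinj]) hij hF hd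
  rw [h, map_zero, mul_zero] at this
  have e : (aeval fun v => algebraMap (MvPolynomial V ℂ) (FractionRing (MvPolynomial V ℂ)) (X v)) =
      IsScalarTower.toAlgHom ℂ (MvPolynomial V ℂ) (FractionRing (MvPolynomial V ℂ)) := by
    ext v; simp
  rw [e] at this
  exact h0 (hinj (by simpa using this))

lemma exists_hom {i j : Fin 4} (hij : i ≠ j) (g : B2) : ∃ (H : MvPolynomial V ℂ) (d : Fin 4 → ℕ),
    IsWeightedHomogeneous wt H d ∧ (∀ k, k ≠ i → k ≠ j → d k = 0) ∧ dh i H = g := by
  refine ⟨∑ m ∈ g.support, C (coeff m g) * ((X (i, false) ^ m 0 * X (i, true) ^ (g.totalDegree - m 0)) *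
    (X (j, false) ^ m 1 * X (j, true) ^ (g.totalDegree - m 1))),
    g.totalDegree • wt (i, false) + g.totalDegree • wt (j, false), ?_, ?_, ?_⟩
  · refine IsWeightedHomogeneous.sum _ _ _ fun m hm => IsWeightedHomogeneous.C_mul ?_ _
    have hle : ∀ l, m l ≤ g.totalDegree := fun l =>
      (monomial_le_degreeOf l hm).trans (degreeOf_le_totalDegree g l)
    have h : ∀ (k : Fin 4) (l : Fin 2), IsWeightedHomogeneous wt
        (X (k, false) ^ m l * X (k, true) ^ (g.totalDegree - m l) : MvPolynomial V ℂ)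
        (g.totalDegree • wt (k, false)) := by
      intro k l
      have := ((isWeightedHomogeneous_X ℂ wt (k, false)).pow (m l)).mul
        ((isWeightedHomogeneous_X ℂ wt (k, true)).pow (g.totalDegree - m l))
      convert this using 1
      have e : wt (k, true) = wt (k, false) := rfl
      rw [e, ← add_smul, Nat.add_sub_cancel' (hle l)]
    exact (h i 0).mul (h j 1)
  · intro k h1 h2
    simp [wt, Pi.single_eq_of_ne h1, Pi.single_eq_of_ne h2]
  · rw [map_sum]
    conv_rhs => rw [g.as_sum]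
    refine Finset.sum_congr rfl fun m _ => ?_
    rw [monomial_eq, Finsupp.prod_fintype _ _ (by simp), Fin.prod_univ_two]
    simp [dh, hij.symm]

theorem rel_exchange {Z : Set (V → ℂ)} (hP : (vanishingIdeal ℂ Z).IsPrime) (h02 : Rel Z 0 2)
    (h03 : Rel Z 0 3) : Rel Z 0 1 ∨ Rel Z 2 3 := by
  by_contra hc
  obtain ⟨h01, h23⟩ := not_or.mp hc
  obtain ⟨P, hPZ⟩ : ∃ P, P = vanishingIdeal ℂ Z := ⟨_, rfl⟩
  rw [← hPZ] at hP
  let L := FractionRing (MvPolynomial V ℂ ⧸ P)
  let q : V → L := fun v => algebraMap (MvPolynomial V ℂ ⧸ P) L (Ideal.Quotient.mk P (X v))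
  have hq : ∀ f : MvPolynomial V ℂ, aeval q f = 0 ↔ ∀ p ∈ Z, aeval p f = 0 := by
    intro f
    have e : aeval q = (IsScalarTower.toAlgHom ℂ (MvPolynomial V ℂ ⧸ P) L).comp
        (Ideal.Quotient.mkₐ ℂ P) := by
      ext v; simp [q]
    rw [e, ← mem_vanishingIdeal_iff, ← hPZ, ← Ideal.Quotient.eq_zero_iff_mem]
    simp [IsFractionRing.injective]
  have hX : ∀ (k i j : Fin 4), (k = i ∨ k = j) → q (k, true) = 0 → Rel Z i j := by
    intro k i j hk h
    refine ⟨X (k, true), wt (k, true), X_ne_zero _, isWeightedHomogeneous_X _ _ _, ?_,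
      (hq _).mp (by simpa using h)⟩
    intro l h1 h2
    have : l ≠ k := by rcases hk with rfl | rfl <;> assumption
    simp [wt, Pi.single_eq_of_ne this]
  have hy : ∀ k, q (k, true) ≠ 0 := by
    intro k h
    fin_cases k
    · exact h01 (hX _ _ _ (Or.inl rfl) h)
    · exact h01 (hX _ _ _ (Or.inr rfl) h)
    · exact h23 (hX _ _ _ (Or.inl rfl) h)
    · exact h23 (hX _ _ _ (Or.inr rfl) h)
  have key : ∀ i j : Fin 4, i ≠ j → (Rel Z i j ↔ ¬ AlgebraicIndependent ℂ
      ![q (i, false) / q (i, true), q (j, false) / q (j, true)]) := by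
    intro i j hij
    constructor
    · rintro ⟨F, d, h0, hF, hd, hZ⟩ hind
      have h1 := dehom q hy hij hF hd
      rw [(hq F).mpr hZ] at h1
      have h2 := (mul_eq_zero.mp h1.symm).resolve_left
        (Finset.prod_ne_zero_iff.mpr fun k _ => pow_ne_zero _ (hy k))
      exact dh_ne_zero hij h0 hF hd (algebraicIndependent_iff.mp hind _ h2)
    · intro hind
      rw [algebraicIndependent_iff] at hind
      push Not at hind
      obtain ⟨g, hg, hg0⟩ := hind
      obtain ⟨H, d, hH, hd, hdh⟩ := exists_hom hij g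
      refine ⟨H, d, fun h => hg0 (by rw [← hdh, h, map_zero]), hH, hd, (hq H).mp ?_⟩
      rw [dehom q hy hij hH hd, hdh, hg, mul_zero]
  rw [key _ _ (by decide), not_not] at h01 h23
  rw [key _ _ (by decide)] at h02 h03
  exact (exchange h01 h23).elim h02 h03

lemma not_rel {i j : Fin 4} (hij : i ≠ j) {Z : Set (V → ℂ)} (hZ : Schub {i, j} ⊆ Z) :
    ¬ Rel Z i j := by
  rintro ⟨F, d, h0, hF, hd, hv⟩
  apply dh_ne_zero hij h0 hF hd
  apply MvPolynomial.funext
  intro s
  let p : V → ℂ := fun v => if v.2 then 1 else if v.1 = i then s 0 else if v.1 = j then s 1 else 0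
  have hp : p ∈ Schub {i, j} := by
    refine ⟨fun k => Or.inr (by simp [p]), fun k hk => ?_⟩
    simp only [Finset.mem_insert, Finset.mem_singleton, not_or] at hk
    simp [p, hk.1, hk.2]
  have h1 := dehom p (fun k => by simp [p]) hij hF hd
  rw [hv p (hZ hp)] at h1
  have e : ![p (i, false) / p (i, true), p (j, false) / p (j, true)] = s := by
    ext l; fin_cases l <;> simp [p, hij.symm]
  rw [e] at h1
  simpa [p, aeval_eq_eval] using h1.symm

lemma rel_XS {j : Fin 4} (h : j = 2 ∨ j = 3) : Rel (XS S0) 0 j := by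
  refine ⟨X (0, false) * X (j, false), wt (0, false) + wt (j, false),
    mul_ne_zero (X_ne_zero _) (X_ne_zero _),
    (isWeightedHomogeneous_X _ _ _).mul (isWeightedHomogeneous_X _ _ _), ?_,
    XX_mem (by tauto)⟩
  intro k h1 h2
  simp [wt, Pi.single_eq_of_ne h1, Pi.single_eq_of_ne h2]

theorem no_deformation {A : Type} [CommRing A] [IsDomain A] [Algebra ℂ A]
    {I : Ideal (MvPolynomial V A)} (hI : MultiHom I) (hflat : ∀ ε, Module.Flat A (ChartRing ε I))
    (φ₀ φ : A →ₐ[ℂ] ℂ) (h0 : fibre I φ₀ = XS S0) : ¬ (vanishingIdeal ℂ (fibre I φ)).IsPrime := by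
  intro hP
  have tr : ∀ (a b : A →ₐ[ℂ] ℂ) (i j : Fin 4), i ≠ j → Rel (fibre I a) i j → Rel (fibre I b) i j :=
    fun a b i j hij h => rel_of_grel hI hflat b (grel_of_rel hI a hij h)
  have h02 := tr φ₀ φ 0 2 (by decide) (h0 ▸ rel_XS (Or.inl rfl))
  have h03 := tr φ₀ φ 0 3 (by decide) (h0 ▸ rel_XS (Or.inr rfl))
  rcases rel_exchange hP h02 h03 with h | h
  · refine not_rel (by decide) ?_ (h0 ▸ tr φ φ₀ 0 1 (by decide) h)
    exact Set.subset_biUnion_of_mem (u := Schub) (by simp [S0])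
  · refine not_rel (by decide) ?_ (h0 ▸ tr φ φ₀ 2 3 (by decide) h)
    exact Set.subset_biUnion_of_mem (u := Schub) (by simp [S0])

end Pool.Agent.H.MP_c10209_ag
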